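import Pool.Agent.Q197.SP.R3aa

/-!
# Primes of the form `p_n + 2 P(n)` in Cramér's random model, for all polynomials at once

`A` is Cramér's random model of the primes and `el S m` the `m`-th element `≥ 3` of `S`, the model of the `m`-th prime.
Almost surely, for all integer-valued polynomials `P` with a positive leading coefficient at once, `el A n + 2 P(n)` is
an element for `(1 + o(1)) N / (κ log N)` of the `n ≤ N`, where `κ = max (1, deg P)`, and the distance from `n` to the
next such index is at most `(κ + o(1)) log² n`.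
-/

set_option autoImplicit false

namespace Pool.Agent.Results.MP_3aaefc_nt.AllPolynomialsAtOnce

open MeasureTheory Filter Pool.Agent.Q120.MF Pool.Agent.Q197.CI Pool.Agent.Q197.SP.R3aa
open scoped Topology Polynomial

theorem result :
    (∃ (Ω : Type) (_ : MeasurableSpace Ω) (μ : Measure Ω) (A : Ω → Set ℕ), IsProbabilityMeasure μ ∧ IsCramer μ A) ∧
    ∀ (Ω : Type) [MeasurableSpace Ω] (μ : Measure Ω) [IsProbabilityMeasure μ] (A : Ω → Set ℕ), IsCramer μ A →
      ∀ᵐ ω ∂μ, (A ω).Infinite ∧ ∀ P : ℚ[X], IntegerValued P → 0 < P.leadingCoeff →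
        Tendsto (fun N : ℕ => cntP (Good (A ω) P) N * Real.log N / N) atTop (𝓝 (1 / kap P)) ∧
        ∀ c : ℝ, kap P < c → ∀ᶠ n : ℕ in atTop,
          ∃ m : ℕ, n < m ∧ (m : ℝ) ≤ n + c * Real.log n ^ 2 ∧ Good (A ω) P m := by
  refine ⟨all_parts.1, fun Ω _ μ _ A hA => ?_⟩
  exact (all_parts.2 Ω μ A hA).1

end Pool.Agent.Results.MP_3aaefc_nt.AllPolynomialsAtOnce
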