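import Pool.Agent.Q236.CG.Final

set_option autoImplicit false

/-!
# Primes `p_k + 2 P(k)` for random integer-valued polynomials: the Cramér-Granville model in all short intervals

Let `P_1, …, P_n` be random polynomials: `P_i(x) = Q_i(x) + c_{i0} + c_{i1} x + … + c_{i,d-1} x^(d-1)`, where the `Q_i` are
arbitrary integer-valued functions (for instance integer-valued polynomials) and the coefficients `c_{ij}` run
independently through the integers of intervals of length at least `X / log^C X`, such that for the arguments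
`k ≤ log^C X` considered the numbers `a_{ik} + m_i P_i(k)` are between `X / log^C X` and `X log^C X`. Here the `a_i` are arbitrary
sequences of integers and `m_i ≠ 0`, `|m_i| ≤ log^C X`; the question is about `n = 1`, `a_k = p_k`, `m = 2`.

The model replaces the indicator function of the primes at `v` by `1 / log v` times `∏ (1 - 1/p)^(-1)` if no prime `p ≤ z`
divides `v`, and by `0` otherwise, where `z` is a power of `log X`.

**Theorem.** If `d ≥ d₀(n, B, E, η)`, then for all but a proportion `log^(-B) X` of the arrays of coefficients the following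
holds for `log^E X` given weights `w` with `|w(k)| ≤ 1` simultaneously: the sum of `w(k)` over the `k` for which all the
`a_{ik} + m_i P_i(k)`, `i ≤ n`, are prime differs from the sum according to the model by at most
`log^η X (1 + ∑ |w(k)| / log^n X)^(1/2)`: square root cancellation, up to `log^η X`.

In particular this holds for the numbers of such `k` in ALL intervals and ALL arithmetic progressions of arguments.
-/

namespace Pool.Agent.Results.MP_3aaefc_nt.AllShortIntervals

open Finset Filter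

/-- The number `a_k + m P(k)` with `P(x) = Q(x) + c_0 + c_1 x + … + c_{d-1} x^(d-1)`. -/
def value {d : ℕ} (a Q : ℕ → ℤ) (m : ℤ) (c : Fin d → ℤ) (k : ℕ) : ℤ := a k + m * (Q k + ∑ j, c j * (k : ℤ) ^ (j : ℕ))

/-- The arrays of coefficients `Z i j < c i j ≤ Z i j + Y i j`. -/
noncomputable def Arrays {n d : ℕ} (Z : Fin n → Fin d → ℤ) (Y : Fin n → Fin d → ℕ) : Finset (Fin n → Fin d → ℤ) :=
  Fintype.piFinset fun i => Fintype.piFinset fun j => Ioc (Z i j) (Z i j + Y i j)

/-- The sizes: intervals of length at least `X / log^C X` for the coefficients, arguments at most `log^C X`, factors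
`m_i ≠ 0` at most `log^C X`, numbers `a_{ik} + m_i P_i(k)` between `X / log^C X` and `X log^C X`. -/
structure Sizes (C X : ℕ) {n d : ℕ} (a Q : Fin n → ℕ → ℤ) (m : Fin n → ℤ) (Z : Fin n → Fin d → ℤ)
    (Y : Fin n → Fin d → ℕ) (S : Finset ℕ) : Prop where
  side : ∀ i j, (X : ℝ) / Real.log X ^ C ≤ Y i j
  arguments : ∀ k ∈ S, (k : ℝ) ≤ Real.log X ^ C
  nonzero : ∀ i, m i ≠ 0
  factors : ∀ i, |(m i : ℝ)| ≤ Real.log X ^ C
  values : ∀ c ∈ Arrays Z Y, ∀ k ∈ S, ∀ i, (X : ℝ) / Real.log X ^ C ≤ value (a i) (Q i) (m i) (c i) k ∧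
    (value (a i) (Q i) (m i) (c i) k : ℝ) ≤ X * Real.log X ^ C

/-- The indicator function of the primes. -/
noncomputable def prime (v : ℤ) : ℝ := if v.toNat.Prime then 1 else 0

open Classical in
/-- The model: `∏_{p ≤ z} (1 - 1/p)^(-1) / log v`, if no prime `p ≤ z` divides `v`, and `0` otherwise. -/
noncomputable def model (z : ℕ) (v : ℤ) : ℝ :=
  if ∀ p : ℕ, p.Prime → p ≤ z → ¬ (p : ℤ) ∣ v then
    (∏ p ∈ (Icc 1 z).filter Nat.Prime, (1 - 1 / (p : ℝ)))⁻¹ / Real.log v else 0

open Pool.Agent.Q236.CG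
open Pool.Agent.Q236.RP (Box mem_Box ev_log_ge ev_pow_log)

lemma arrays_eq {n d : ℕ} (Z : Fin n → Fin d → ℤ) (Y : Fin n → Fin d → ℕ) : Arrays Z Y = BA Z Y := rfl

lemma value_eq {d : ℕ} (a Q : ℕ → ℤ) (m : ℤ) (c : Fin d → ℤ) (k : ℕ) :
    value a Q m c k = evm (fun k => a k + m * Q k) m c k := by
  unfold value evm
  ring

lemma model_eq (z : ℕ) (v : ℤ) (hv : 0 < v) : model z v = mi z v := by
  unfold model mi Pool.Agent.H373R2.T7.lamz Pool.Agent.H373R2.T7.Vz
  have hnat : ((v.toNat : ℕ) : ℝ) = v := by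
    have : ((v.toNat : ℕ) : ℤ) = v := Int.toNat_of_nonneg hv.le
    exact_mod_cast this
  have hiff : (∀ p : ℕ, p.Prime → p ≤ z → ¬ (p : ℤ) ∣ v) ↔ ∀ p ∈ Pool.Agent.H373R2.T7.pz z, ¬ p ∣ v.toNat := by
    have h1 : ∀ p : ℕ, (p : ℤ) ∣ v ↔ p ∣ v.toNat := by
      intro p
      rw [← Int.natCast_dvd_natCast, Int.toNat_of_nonneg hv.le]
    constructor
    · intro h p hp
      rw [Pool.Agent.H373R2.T7.mem_pz] at hp
      rw [← h1]
      exact h p hp.2 hp.1
    · intro h p hp hpz
      rw [h1]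
      exact h p (Pool.Agent.H373R2.T7.mem_pz.2 ⟨hpz, hp⟩)
  by_cases h : ∀ p : ℕ, p.Prime → p ≤ z → ¬ (p : ℤ) ∣ v
  · rw [if_pos h, if_pos (hiff.1 h), hnat]
    rfl
  · rw [if_neg h, if_neg (fun h2 => h (hiff.2 h2)), zero_div]

lemma box_nonempty {n d : ℕ} (Z : Fin n → Fin d → ℤ) (Y : Fin n → Fin d → ℕ) (hY : ∀ i j, 1 ≤ Y i j) (i : Fin n)
    (b : Fin d → ℤ) (hb : b ∈ Box (Z i) (Y i)) : ∃ c ∈ Arrays Z Y, c i = b := by
  refine ⟨fun l => if h : l = i then b else fun j => Z l j + 1, ?_, ?_⟩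
  · rw [arrays_eq, mem_BA]
    intro l
    split_ifs with hl
    · rw [hl]
      exact hb
    · rw [mem_Box]
      intro j
      have : (1 : ℤ) ≤ Y l j := by exact_mod_cast hY l j
      exact ⟨by linarith, by linarith⟩
  · simp

lemma sizes_cz {C X n d : ℕ} {a Q : Fin n → ℕ → ℤ} {m : Fin n → ℤ} {Z : Fin n → Fin d → ℤ} {Y : Fin n → Fin d → ℕ}
    {S : Finset ℕ} (h : Sizes C X a Q m Z Y S) (hX : (0 : ℝ) < (X : ℝ) / Real.log X ^ C) :
    ∀ i, CZ C X (fun k => a i k + m i * Q i k) (m i) (Z i) (Y i) S := by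
  have hY : ∀ i j, 1 ≤ Y i j := by
    intro i j
    have h1 := h.side i j
    have : (0 : ℝ) < Y i j := lt_of_lt_of_le hX h1
    exact_mod_cast this
  intro i
  refine ⟨h.side i, h.arguments, h.nonzero i, h.factors i, ?_, ?_⟩
  · intro k hk b hb
    obtain ⟨c, hc, rfl⟩ := box_nonempty Z Y hY i b hb
    have := (h.values c hc k hk i).1
    rw [value_eq] at this
    exact this
  · intro k hk b hb
    obtain ⟨c, hc, rfl⟩ := box_nonempty Z Y hY i b hb
    have := (h.values c hc k hk i).2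
    rw [value_eq] at this
    exact this

open Classical in
/-- **The Cramér-Granville model for `a_{ik} + m_i P_i(k)`, simultaneously for a power of `log X` of weights.** -/
theorem result (n B E : ℕ) (hn : 1 ≤ n) (η : ℝ) (hη : 0 < η) : ∃ d₀ : ℕ, ∀ A C d : ℕ, d₀ ≤ d → ∃ X₀ : ℕ, ∀ X, X₀ ≤ X →
    ∀ z : ℕ, Real.log X ^ (C * d) ≤ z → (z : ℝ) ≤ Real.log X ^ A →
    ∀ (a Q : Fin n → ℕ → ℤ) (m : Fin n → ℤ) (Z : Fin n → Fin d → ℤ) (Y : Fin n → Fin d → ℕ) (S : Finset ℕ),
    Sizes C X a Q m Z Y S → ∀ (T : ℕ) (w : ℕ → ℕ → ℝ), (T : ℝ) ≤ Real.log X ^ E → (∀ t, ∀ k ∈ S, |w t k| ≤ 1) →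
    (((Arrays Z Y).filter (fun c => ¬ ∀ t < T,
      |∑ k ∈ S, w t k * ∏ i, prime (value (a i) (Q i) (m i) (c i) k) -
        ∑ k ∈ S, w t k * ∏ i, model z (value (a i) (Q i) (m i) (c i) k)| ≤
      Real.log X ^ η * Real.sqrt (1 + (∑ k ∈ S, |w t k|) / Real.log X ^ n))).card : ℝ) ≤
      (Arrays Z Y).card / Real.log X ^ B := by
  obtain ⟨d0, h⟩ := cg_main n B E hn η hη
  refine ⟨d0, ?_⟩
  intro A C d hd
  obtain ⟨X0, hX0⟩ := eventually_atTop.1 ((h A C d hd).and ((ev_log_ge 1).and (ev_pow_log 1)))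
  refine ⟨X0, ?_⟩
  intro X hX z hzC hzA a Q m Z Y S hsz T w hT hw
  obtain ⟨h1, hL1, hP⟩ := hX0 X hX
  have hXp : (0 : ℝ) < (X : ℝ) / Real.log X ^ C := by
    have : (0 : ℝ) < X := by
      rw [pow_one] at hP
      linarith
    positivity
  have h2 := h1 z hzA hzC (fun i k => a i k + m i * Q i k) m Z Y S (sizes_cz hsz hXp) T w hT hw
  refine le_trans (le_of_eq ?_) h2
  rw [arrays_eq]
  have hfilt : (BA Z Y).filter (fun c => ¬ ∀ t < T,
      |∑ k ∈ S, w t k * ∏ i, prime (value (a i) (Q i) (m i) (c i) k) -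
        ∑ k ∈ S, w t k * ∏ i, model z (value (a i) (Q i) (m i) (c i) k)| ≤
      Real.log X ^ η * Real.sqrt (1 + (∑ k ∈ S, |w t k|) / Real.log X ^ n)) =
      (BA Z Y).filter (fun c => ∃ t < T, Real.log X ^ η * Real.sqrt (1 + (∑ k ∈ S, |w t k|) / Real.log X ^ n) <
      |∑ k ∈ S, w t k * DD z (vals (fun i k => a i k + m i * Q i k) m c k)|) := by
    apply Finset.filter_congr
    intro c hc
    have hsum : ∀ t, ∑ k ∈ S, w t k * ∏ i, prime (value (a i) (Q i) (m i) (c i) k) -
        ∑ k ∈ S, w t k * ∏ i, model z (value (a i) (Q i) (m i) (c i) k) =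
        ∑ k ∈ S, w t k * DD z (vals (fun i k => a i k + m i * Q i k) m c k) := by
      intro t
      rw [← Finset.sum_sub_distrib]
      apply Finset.sum_congr rfl
      intro k hk
      have e1 : ∏ i, prime (value (a i) (Q i) (m i) (c i) k) = PP (vals (fun i k => a i k + m i * Q i k) m c k) := by
        unfold PP vals
        apply Finset.prod_congr rfl
        intro i _
        rw [value_eq]
        rfl
      have e2 : ∏ i, model z (value (a i) (Q i) (m i) (c i) k) = MM z (vals (fun i k => a i k + m i * Q i k) m c k) := by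
        unfold MM vals
        apply Finset.prod_congr rfl
        intro i _
        have h3 := (hsz.values c hc k hk i).1
        have h4 : (0 : ℝ) < value (a i) (Q i) (m i) (c i) k := lt_of_lt_of_le hXp h3
        rw [model_eq z _ (by exact_mod_cast h4), value_eq]
      rw [e1, e2]
      unfold DD
      ring
    push Not
    simp only [hsum]
  rw [hfilt]

end Pool.Agent.Results.MP_3aaefc_nt.AllShortIntervals
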