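import Pool.Agent.Q138.PS.UX
import Pool.Agent.Q138.PS.UW
import Pool.Agent.Results.MP_3aaefc_nt.AlmostAllConstantPolynomials

/-!
# The constant polynomials `c, 2 c, 3 c, 4 c` with `c = ⌊α P(n)⌋`, at every scale

Let `q ≥ 2`. Outside a set of real numbers of Hausdorff dimension at most `q / (q + 1 / (q 2 ^ (q - 1)))` (that is `8 / 9` for
`q = 2`) every `α > 0` has the following property. There is `η > 0` such that for every `ε > 0` there is `C` such that for all
large `N` and ALL integral polynomials `P` of degree `q` with positive leading coefficient and coefficients of size at most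
`N ^ η`, for at least `(1 - ε) N` of the `n ≤ N` one of the constant polynomials `c, 2 c, 3 c` (or `4 c`, if `3 ∤ c`),
`c = ⌊α P(n)⌋`, has the property of the question; and, for every `δ > 0`, for ALL integers `x` with `C N ^ (q + 1) ≤ x`,
`log x ≤ N ^ η`, one of them, `j c`, is such that `p_m + 2 j c` is prime for at least `x ^ (1 - δ)` of the `m` with
`x / C ≤ p_m ≤ x`, again for at least `(1 - ε) N` of the `n ≤ N`.
-/

set_option autoImplicit false

namespace Pool.Agent.Results.MP_3aaefc_nt.ConstantsAlongRealMultiples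

open Finset Filter Topology
open Pool.Agent.Q138.PS
open Pool.Agent.Results.MP_3aaefc_nt.AlmostAllConstantPolynomials (count Good R)

/-- one of the constant polynomials `c, 2 c, ..., R(c) c` has the property of the question -/
def SomeGood (c : ℕ) : Prop := ∃ j : ℕ, 1 ≤ j ∧ j ≤ R c ∧ Good (j * c)

/-- for one of the multiples `k = c, 2 c, ..., R(c) c` the number of the `m` with `x / C ≤ p_m ≤ x` and `p_m + 2 k` prime is at
least `x ^ (1 - δ)` -/
def AtScale (C : ℕ) (δ : ℝ) (x : ℕ) (c : ℕ) : Prop :=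
  ∃ j : ℕ, 1 ≤ j ∧ j ≤ R c ∧ (x : ℝ) ^ (1 - δ) ≤ (count (j * c) (x / C) x : ℝ)

open Classical in
/-- the number of the `1 ≤ n ≤ N` for which `⌊α P(n)⌋` has the property `S` -/
noncomputable def number (S : ℕ → Prop) (α : ℝ) (P : Polynomial ℤ) (N : ℕ) : ℕ :=
  ((Icc 1 N).filter fun n : ℕ => S ⌊α * ((P.eval (n : ℤ) : ℤ) : ℝ)⌋₊).card

theorem number_eq (S : ℕ → Prop) (α : ℝ) (P : Polynomial ℤ) (N : ℕ) : (number S α P N : ℝ) = cnP S α P N := by
  classical
  unfold number cnP cn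
  refine congrArg _ (congrArg _ ?_)
  ext n
  simp only [mem_filter]

theorem cn_not (Y : ℕ → Prop) (y : ℕ) : cn Y y + cn (fun m => ¬ Y m) y = y := by
  classical
  rw [← cn_sum, ← cn_sum, ← sum_add_distrib]
  have h1 : ∀ m ∈ Icc 1 y, ind Y m + ind (fun m => ¬ Y m) m = 1 := by
    intro m _
    rw [ind_eq, ind_eq]
    by_cases h : Y m <;> simp [h]
  rw [sum_congr rfl h1]
  simp

theorem count_mono {c : ℕ} {y y' x x' : ℝ} (hy : y' ≤ y) (hx : x ≤ x') : count c y x ≤ count c y' x' := by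
  rw [Pool.Agent.Results.MP_3aaefc_nt.AlmostAllConstantPolynomials.count_eq,
    Pool.Agent.Results.MP_3aaefc_nt.AlmostAllConstantPolynomials.count_eq]
  unfold Pool.Agent.Y863.AR.dif
  refine Set.ncard_le_ncard ?_ ((Set.finite_le_nat ⌊x'⌋₊).subset fun q hq => Nat.le_floor hq.2.2)
  rintro q ⟨h1, h2, h3⟩
  exact ⟨h1, hy.trans h2, h3.trans hx⟩

/-- **Theorem.** -/
theorem result (q : ℕ) (hq : 2 ≤ q) :
    ∃ E : Set ℝ, dimH E ≤ ENNReal.ofReal (q / (q + 1 / ((q : ℝ) * 2 ^ (q - 1)))) ∧ ∀ α : ℝ, 0 < α → α ∉ E →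
      ∃ η : ℝ, 0 < η ∧ ∀ ε : ℝ, 0 < ε → ∃ C : ℕ, 1 ≤ C ∧
        (∀ᶠ N : ℕ in atTop, ∀ P : Polynomial ℤ, P.natDegree = q → 0 < P.leadingCoeff →
          (∀ j, |((P.coeff j : ℤ) : ℝ)| ≤ (N : ℝ) ^ η) → (1 - ε) * (N : ℝ) ≤ number SomeGood α P N) ∧
        ∀ δ : ℝ, 0 < δ → ∀ᶠ N : ℕ in atTop, ∀ x : ℕ, C * N ^ (q + 1) ≤ x → Real.log x ≤ (N : ℝ) ^ η →
          ∀ P : Polynomial ℤ, P.natDegree = q → 0 < P.leadingCoeff →
          (∀ j, |((P.coeff j : ℤ) : ℝ)| ≤ (N : ℝ) ^ η) → (1 - ε) * (N : ℝ) ≤ number (AtScale C δ x) α P N := by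
  classical
  have hd := fun a : ℕ => Pool.Agent.Y863.AR.diffs (1 / ((a : ℝ) + 1)) (by positivity)
  choose L C hC hs _ using hd
  obtain ⟨E, hE, hg⟩ := low_scales (ι := ℕ × ℕ) q hq (fun ab m => AtScale (C ab.1) (1 / ((ab.2 : ℝ) + 1)) (2 ^ m))
    (fun _ m => 2 ^ m)
  obtain ⟨E', hE', hg'⟩ := low_all (ι := Unit) q hq (fun _ => SomeGood)
  refine ⟨E ∪ E', ?_, fun α hα hαE => ?_⟩
  · rw [dimH_union]
    exact max_le hE hE'
  obtain ⟨η, hη, h1⟩ := hg α hα (fun h => hαE (Or.inl h))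
  obtain ⟨η', hη', h1'⟩ := hg' α hα (fun h => hαE (Or.inr h)) ()
  have hηm : 0 < min (η / 2) η' := lt_min (by positivity) hη'
  refine ⟨min (η / 2) η', hηm, fun ε hε => ?_⟩
  obtain ⟨a, ha⟩ := exists_nat_one_div_lt (show (0 : ℝ) < ε / 2 by positivity)
  refine ⟨2 * C a, by have := hC a; omega, ?_, fun δ hδ => ?_⟩
  · have h2 := h1' 1 (fun δ hδ => by
      obtain ⟨L1, C1, h3, -⟩ := Pool.Agent.Results.MP_3aaefc_nt.AlmostAllConstantPolynomials.result δ hδ
      filter_upwards [eventually_ge_atTop L1] with y hy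
      have h4 := h3 0 y hy
      have h5 := cn_not SomeGood y
      have h6 : cn (fun m => ¬ SomeGood m) y ≤ δ * y := by
        refine le_trans (le_of_eq ?_) h4
        unfold cn
        refine congrArg _ (congrArg _ ?_)
        ext n
        simp only [mem_filter, mem_Icc, mem_Ioc, zero_add, SomeGood, not_exists, not_and]
        exact and_congr_left fun _ => ⟨fun h => ⟨by omega, h.2⟩, fun h => ⟨by omega, h.2⟩⟩
      have h7 : (1 - δ) * (y : ℝ) = y - δ * y := by ring
      linarith) ε hε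
    filter_upwards [h2, eventually_ge_atTop 1] with N hN hN1
    intro P hdeg hlead hco
    have hNr : (1 : ℝ) ≤ N := by exact_mod_cast hN1
    rw [number_eq]
    exact hN P hdeg hlead fun j => (hco j).trans (Real.rpow_le_rpow_of_exponent_le hNr (min_le_right _ _))
  · obtain ⟨b, hb⟩ := exists_nat_one_div_lt (show (0 : ℝ) < min (δ / 2) 1 by positivity)
    set d : ℝ := 1 / ((b : ℝ) + 1) with hd
    have hd0 : 0 < d := by positivity
    have hd1 : d < δ / 2 := hb.trans_le (min_le_left _ _)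
    have hd2 : d < 1 := hb.trans_le (min_le_right _ _)
    have h2 := h1 (a, b) (1 - 1 / ((a : ℝ) + 1)) (C a) (L a) (by
      have : (0 : ℝ) < 1 / ((a : ℝ) + 1) := by positivity
      linarith) (hC a) (by
      have h3 := hs a d hd0 hd2.le
      have h4 : Tendsto (fun m : ℕ => 2 ^ m) atTop atTop := tendsto_pow_atTop_atTop_of_one_lt (by norm_num : (1 : ℕ) < 2)
      filter_upwards [h4.eventually h3] with m hm
      intro y hy
      have h5 := cn_not (AtScale (C a) d (2 ^ m)) y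
      rcases le_or_gt (L a) y with h | h
      · have h6 := hm 0 y h (by simpa using hy)
        have h7 : cn (fun k => ¬ AtScale (C a) d (2 ^ m) k) y ≤ 1 / ((a : ℝ) + 1) * y := by
          refine le_trans (le_of_eq ?_) h6
          unfold cn
          refine congrArg _ (congrArg _ ?_)
          ext n
          simp only [mem_filter, mem_Icc, mem_Ioc, zero_add, AtScale, not_exists, not_and, not_le]
          constructor
          · rintro ⟨h7, h8⟩
            refine ⟨⟨by omega, h7.2⟩, fun j hj1 hj2 => ?_⟩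
            have h9 := h8 j hj1 hj2
            rw [Pool.Agent.Results.MP_3aaefc_nt.AlmostAllConstantPolynomials.count_eq] at h9
            exact h9
          · rintro ⟨h7, h8⟩
            refine ⟨⟨by omega, h7.2⟩, fun j hj1 hj2 => ?_⟩
            rw [Pool.Agent.Results.MP_3aaefc_nt.AlmostAllConstantPolynomials.count_eq]
            exact h8 j hj1 hj2
        have h8 : (1 - 1 / ((a : ℝ) + 1)) * (y : ℝ) = y - 1 / ((a : ℝ) + 1) * y := by ring
        have h9 : (0 : ℝ) ≤ L a := Nat.cast_nonneg _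
        linarith
      · have h6 : (y : ℝ) ≤ L a := by exact_mod_cast h.le
        have h7 : 0 ≤ cn (AtScale (C a) d (2 ^ m)) y := cn_nonneg _ _
        have h8 : (0 : ℝ) ≤ 1 / ((a : ℝ) + 1) * y := by positivity
        have h9 : (1 - 1 / ((a : ℝ) + 1)) * (y : ℝ) = y - 1 / ((a : ℝ) + 1) * y := by ring
        have h10 : cn (AtScale (C a) d (2 ^ m)) y = cn (AtScale (C a) (1 / (((a, b) : ℕ × ℕ).2 + 1)) (2 ^ m)) y := rfl
        linarith) (ε / 2) (by positivity)
    have hrp : Tendsto (fun N : ℕ => (N : ℝ) ^ (η / 2)) atTop atTop :=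
      (tendsto_rpow_atTop (by positivity)).comp tendsto_natCast_atTop_atTop
    have hrd : Tendsto (fun N : ℕ => (N : ℝ) ^ d) atTop atTop :=
      (tendsto_rpow_atTop (by positivity)).comp tendsto_natCast_atTop_atTop
    filter_upwards [h2, hrp.eventually_ge_atTop 2, hrd.eventually_ge_atTop 2, eventually_ge_atTop 1] with N hN hN2 hNd hN1
    intro x hx hlx P hdeg hlead hco
    have hNr : (1 : ℝ) ≤ N := by exact_mod_cast hN1
    have hN0 : (0 : ℝ) < N := by linarith
    have hCa := hC a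
    have hxN : N ≤ x := by
      have h3 : N ≤ N ^ (q + 1) := Nat.le_self_pow (by omega) N
      have h6 : N ^ (q + 1) ≤ 2 * C a * N ^ (q + 1) := Nat.le_mul_of_pos_left _ (by omega)
      omega
    have hx0 : x ≠ 0 := by omega
    have hxr : (0 : ℝ) < x := by exact_mod_cast (by omega : 0 < x)
    set m : ℕ := Nat.log 2 x with hm
    have hm1 : 2 ^ m ≤ x := Nat.pow_log_le_self 2 hx0
    have hm2 : x < 2 * 2 ^ m := by
      have h4 := Nat.lt_pow_succ_log_self (b := 2) (by norm_num) x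
      rw [← hm, pow_succ] at h4
      omega
    have hm1r : (2 : ℝ) ^ m ≤ x := by exact_mod_cast hm1
    have hm2r : (x : ℝ) < 2 * 2 ^ m := by exact_mod_cast hm2
    have hml : (m : ℝ) ≤ (N : ℝ) ^ η := by
      have h3 : (m : ℝ) * Real.log 2 ≤ Real.log x := by
        rw [← Real.log_pow]
        exact Real.log_le_log (by positivity) hm1r
      have h4 : (1 / 2 : ℝ) ≤ Real.log 2 := by
        have := Real.log_two_gt_d9
        linarith
      have h5 : (m : ℝ) * (1 / 2) ≤ m * Real.log 2 := by gcongr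
      have h6 : (N : ℝ) ^ min (η / 2) η' ≤ (N : ℝ) ^ (η / 2) := Real.rpow_le_rpow_of_exponent_le hNr (min_le_left _ _)
      have h7 : (N : ℝ) ^ η = (N : ℝ) ^ (η / 2) * (N : ℝ) ^ (η / 2) := by
        rw [← Real.rpow_add hN0]
        congr 1
        ring
      have h8 : (m : ℝ) ≤ 2 * (N : ℝ) ^ (η / 2) := by linarith
      have h9 : 2 * (N : ℝ) ^ (η / 2) ≤ (N : ℝ) ^ (η / 2) * (N : ℝ) ^ (η / 2) := by gcongr
      linarith
    have h3 := hN m (by
      show C a * N ^ (q + 1) ≤ 2 ^ m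
      have h4 : 2 * C a * N ^ (q + 1) = 2 * (C a * N ^ (q + 1)) := by ring
      omega) hml P hdeg hlead fun j => (hco j).trans (Real.rpow_le_rpow_of_exponent_le hNr (by
        have := min_le_left (η / 2) η'
        linarith))
    have h4 : (1 - ε) * (N : ℝ) ≤ (1 - 1 / ((a : ℝ) + 1) - ε / 2) * N := by
      exact mul_le_mul_of_nonneg_right (by linarith) (Nat.cast_nonneg _)
    rw [number_eq]
    refine h4.trans (h3.trans ?_)
    unfold cnP cn
    refine Nat.cast_le.2 (card_le_card ?_)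
    intro n hn
    simp only [mem_filter] at hn ⊢
    obtain ⟨h5, j, hj1, hj2, h6⟩ := hn
    refine ⟨h5, j, hj1, hj2, ?_⟩
    have hCr : (1 : ℝ) ≤ C a := by exact_mod_cast hCa
    have h7 : count (j * ⌊α * ((P.eval (n : ℤ) : ℤ) : ℝ)⌋₊) (((2 ^ m : ℕ) : ℝ) / C a) ((2 ^ m : ℕ) : ℝ) ≤
        count (j * ⌊α * ((P.eval (n : ℤ) : ℤ) : ℝ)⌋₊) ((x : ℝ) / ((2 * C a : ℕ) : ℝ)) x := by
      apply count_mono
      · push_cast
        rw [div_le_div_iff₀ (by positivity) (by positivity)]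
        nlinarith
      · push_cast
        exact hm1r
    have h8 : (x : ℝ) ^ (1 - δ) ≤ (((2 ^ m : ℕ) : ℝ)) ^ (1 - d) := by
      have hx1 : (1 : ℝ) ≤ x := hNr.trans (by exact_mod_cast hxN)
      have e1 : (x : ℝ) ^ (1 - δ) ≤ (x : ℝ) ^ (1 - d - d) := Real.rpow_le_rpow_of_exponent_le hx1 (by linarith)
      have e2 : (x : ℝ) ^ (1 - d - d) * (x : ℝ) ^ d = (x : ℝ) ^ (1 - d) := by
        rw [← Real.rpow_add hxr]
        congr 1
        ring
      have e3 : (2 : ℝ) ≤ (x : ℝ) ^ d := hNd.trans (Real.rpow_le_rpow (by positivity) (by exact_mod_cast hxN) hd0.le)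
      have e4 : (x : ℝ) ^ (1 - d) ≤ (2 * 2 ^ m : ℝ) ^ (1 - d) := Real.rpow_le_rpow hxr.le hm2r.le (by linarith)
      have e5 : (2 * 2 ^ m : ℝ) ^ (1 - d) = (2 : ℝ) ^ (1 - d) * ((2 : ℝ) ^ m) ^ (1 - d) :=
        Real.mul_rpow (by norm_num) (by positivity)
      have e6 : (2 : ℝ) ^ (1 - d) ≤ 2 := by
        calc (2 : ℝ) ^ (1 - d) ≤ (2 : ℝ) ^ (1 : ℝ) := Real.rpow_le_rpow_of_exponent_le (by norm_num) (by linarith)
          _ = 2 := Real.rpow_one 2
      have e7 : (0 : ℝ) ≤ ((2 : ℝ) ^ m) ^ (1 - d) := by positivity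
      have e8 : (0 : ℝ) ≤ (x : ℝ) ^ (1 - d - d) := by positivity
      push_cast
      nlinarith
    refine h8.trans ?_
    have h9 : (((2 ^ m : ℕ) : ℝ)) ^ (1 - d) ≤
        (count (j * ⌊α * ((P.eval (n : ℤ) : ℤ) : ℝ)⌋₊) (((2 ^ m : ℕ) : ℝ) / C a) ((2 ^ m : ℕ) : ℝ) : ℝ) := h6
    exact h9.trans (by exact_mod_cast h7)

end Pool.Agent.Results.MP_3aaefc_nt.ConstantsAlongRealMultiples
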