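import Pool.Agent.Q197.SP.R3aa

/-!
# The gaps between the indices `n` with `p_n + 2 P(n)` prime in Cramér's random model

`A` is Cramér's random model of the primes and `el S m` the `m`-th element `≥ 3` of `S`, the model of the `m`-th prime.
Let `P` be an integer-valued polynomial with a positive leading coefficient and `κ = max (1, deg P)`. Almost surely, the
number of the `n ≤ N` without an index `m` in `(n, n + c log² n]` for which `el A m + 2 P(m)` is an element is
`N ^ (1 - c / κ + o(1))` for `0 < c < κ`, and with `t log n` in place of `c log² n` it is `(exp (-t / κ) + o(1)) N`.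
-/

set_option autoImplicit false

namespace Pool.Agent.Results.MP_3aaefc_nt.SpectrumOfGaps

open MeasureTheory Filter Pool.Agent.Q120.MF Pool.Agent.Q197.CI Pool.Agent.Q197.SP.R3aa
open scoped Topology Polynomial

theorem result :
    (∃ (Ω : Type) (_ : MeasurableSpace Ω) (μ : Measure Ω) (A : Ω → Set ℕ), IsProbabilityMeasure μ ∧ IsCramer μ A) ∧
    ∀ (Ω : Type) [MeasurableSpace Ω] (μ : Measure Ω) [IsProbabilityMeasure μ] (A : Ω → Set ℕ), IsCramer μ A →
      ∀ P : ℚ[X], IntegerValued P → 0 < P.leadingCoeff →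
      -- the number of the long gaps
      (∀ c : ℝ, 0 < c → c < kap P → ∀ᵐ ω ∂μ, Tendsto (fun N : ℕ =>
        Real.log (cntP (fun n => Gap (A ω) P n (c * Real.log n ^ 2)) N) / Real.log N) atTop (𝓝 (1 - c / kap P))) ∧
      -- typical gaps
      (∀ t : ℝ, 0 < t → ∀ᵐ ω ∂μ, Tendsto (fun N : ℕ =>
        cntP (fun n => Gap (A ω) P n (t * Real.log n)) N / N) atTop (𝓝 (Real.exp (-(t / kap P))))) := by
  refine ⟨all_parts.1, fun Ω _ μ _ A hA => ?_⟩
  exact (all_parts.2 Ω μ A hA).2

end Pool.Agent.Results.MP_3aaefc_nt.SpectrumOfGaps
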